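import Mathlib

/-!
# The supercongruence of the problem file fails at `p = 11`
-/

namespace Pool.Agent.Results.MP_0a3b9a_nt.PrimeEleven

/-- `binom(a, k) = a (a - 1) ⋯ (a - k + 1) / k!` for rational `a`. -/
def binom (a : ℚ) : ℕ → ℚ
  | 0 => 1
  | k + 1 => binom a k * (a - k) / (k + 1)

/-- The partial sum `∑_{k < n} binom(a, k) binom(b, k) (27/2)^k`. -/
def S (a b : ℚ) : ℕ → ℚ
  | 0 => 0
  | n + 1 => S a b n + binom a n * binom b n * (27 / 2) ^ n

def S1 (p : ℕ) : ℚ := S (-1 / 3) (-1 / 6) p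

def S2 (p : ℕ) : ℚ := S (-2 / 3) (-5 / 6) p

/-- `ε_p`: it is `1` if `p ≡ 1 (mod 3)` and `-25/2` otherwise. -/
def eps (p : ℕ) : ℚ := if p % 3 = 1 then 1 else -25 / 2

/-- Congruence modulo `p ^ 2` in the ring of rationals with denominator prime to `p`. -/
def Cong (p : ℕ) (u v : ℚ) : Prop :=
  ∃ w : ℚ, ¬ p ∣ w.den ∧ u - v = (p : ℚ) ^ 2 * w

/-- The Legendre symbol of the residue modulo `p` of a rational `a` with denominator prime to `p`
(`a = num / den` and `num * den` have the same quadratic character). -/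
noncomputable def leg (p : ℕ) [Fact p.Prime] (a : ℚ) : ℚ :=
  (legendreSym p (a.num * a.den) : ℤ)

/-- The right-hand side `R(p)` for the representation `p = c ^ 2 + 2 d ^ 2`. -/
noncomputable def R (p : ℕ) [Fact p.Prime] (c d : ℤ) : ℚ :=
  if p % 24 = 1 ∨ p % 24 = 19 then
    (-1) ^ (p / 8) * leg p (-2 - (c : ℚ) / d) * (2 * c - p / (2 * c))
  else
    (-1) ^ (p / 8) * leg p (2 + (c : ℚ) / d) * (10 * d - 5 * p / (4 * d))

/-- The congruences of Q1. -/
def Question : Prop :=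
  ∀ (p : ℕ) [Fact p.Prime], (p % 8 = 1 ∨ p % 8 = 3) → p ≠ 3 → ∀ c d : ℤ,
    (p : ℤ) = c ^ 2 + 2 * d ^ 2 → c % 4 = 1 →
    Cong p (S1 p) (eps p * S2 p) ∧ Cong p (S1 p) (R p c d)

instance : Fact (Nat.Prime 11) := ⟨by norm_num⟩

theorem leg_eq : leg 11 (2 + ((-3 : ℤ) : ℚ) / (1 : ℤ)) = -1 := by
  have h1 : (2 + ((-3 : ℤ) : ℚ) / (1 : ℤ)).num = -1 := by decide +kernel
  have h2 : (2 + ((-3 : ℤ) : ℚ) / (1 : ℤ)).den = 1 := by decide +kernel
  unfold leg
  rw [h1, h2]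
  have : legendreSym 11 ((-1) * ((1 : ℕ) : ℤ)) = -1 := by
    rw [legendreSym.eq_neg_one_iff 11]
    decide
  rw [this]; norm_num

theorem R_eq : R 11 (-3) 1 = -15 / 4 := by
  unfold R
  rw [if_neg (by norm_num), leg_eq]
  norm_num

theorem compute : 11 ∣ ((S1 11 - (-15 / 4)) / 121).den := by
  decide +kernel

theorem fails : ¬ Cong 11 (S1 11) (-15 / 4) := by
  rintro ⟨w, hw, h⟩
  apply hw
  have : w = (S1 11 - (-15 / 4)) / 121 := by
    rw [h]; norm_num
  rw [this]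
  exact compute

/-- **Q1 fails** at `p = 11`, `(c, d) = (-3, 1)`: `11 = (-3) ^ 2 + 2 * 1 ^ 2`, `-3 ≡ 1 (mod 4)`, the
right-hand side is `R(11) = -15 / 4`, and `S1 11` is not congruent to `-15 / 4` modulo `11 ^ 2`. -/
theorem result : ¬ Question ∧ ¬ Cong 11 (S1 11) (R 11 (-3) 1) := by
  have key : ¬ Cong 11 (S1 11) (R 11 (-3) 1) := by
    rw [R_eq]
    exact fails
  refine ⟨fun H => key ?_, key⟩
  exact (H 11 (Or.inr (by norm_num)) (by norm_num) (-3) 1 (by norm_num) (by norm_num)).2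

end Pool.Agent.Results.MP_0a3b9a_nt.PrimeEleven
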